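import Pool.Agent.Helper54.NCM.Schur

/-!
# The action of the symmetric group on tensor powers is faithful if there are enough summands
-/

open CategoryTheory MonoidalCategory Limits
open Pool.Agent.Helper54.NCM

namespace Pool.Agent.Helper23.NCM

section
universe v u
variable {C : Type u} [Category.{v} C] [MonoidalCategory C] [SymmetricCategory C]

/-- The morphism `i₀ ⊗ i₁ ⊗ ⋯` from the unit to the tensor power. -/
def ins {X : C} : (n : ℕ) → (Fin n → (𝟙_ C ⟶ X)) → (𝟙_ C ⟶ tpow X n)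
  | 0, _ => 𝟙 _
  | n + 1, i => (λ_ (𝟙_ C)).inv ≫ (i 0 ⊗ₘ ins n (fun k => i k.succ))

/-- The morphism `p₀ ⊗ p₁ ⊗ ⋯` from the tensor power to the unit. -/
def proj {X : C} : (n : ℕ) → (Fin n → (X ⟶ 𝟙_ C)) → (tpow X n ⟶ 𝟙_ C)
  | 0, _ => 𝟙 _
  | n + 1, p => (p 0 ⊗ₘ proj n (fun k => p k.succ)) ≫ (λ_ (𝟙_ C)).hom

lemma braiding_unit : (β_ (𝟙_ C) (𝟙_ C)).hom = 𝟙 _ := by
  rw [braiding_tensorUnit_left, unitors_equal, Iso.hom_inv_id]

lemma ins_swap {X : C} (n : ℕ) (f g : 𝟙_ C ⟶ X) (r : 𝟙_ C ⟶ tpow X n) :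
    ((λ_ (𝟙_ C)).inv ≫ (f ⊗ₘ ((λ_ (𝟙_ C)).inv ≫ (g ⊗ₘ r)))) ≫ swapFirst X (tpow X n) =
      (λ_ (𝟙_ C)).inv ≫ (g ⊗ₘ ((λ_ (𝟙_ C)).inv ≫ (f ⊗ₘ r))) := by
  have h1 : (f ⊗ₘ ((λ_ (𝟙_ C)).inv ≫ (g ⊗ₘ r))) =
      (𝟙_ C ◁ (λ_ (𝟙_ C)).inv) ≫ (f ⊗ₘ (g ⊗ₘ r)) := by
    rw [← id_tensorHom, tensorHom_comp_tensorHom, Category.id_comp]
  have h2 : (g ⊗ₘ ((λ_ (𝟙_ C)).inv ≫ (f ⊗ₘ r))) =
      (𝟙_ C ◁ (λ_ (𝟙_ C)).inv) ≫ (g ⊗ₘ (f ⊗ₘ r)) := by
    rw [← id_tensorHom, tensorHom_comp_tensorHom, Category.id_comp]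
  have h3 : (f ⊗ₘ g) ≫ (β_ X X).hom = (g ⊗ₘ f) := by
    rw [BraidedCategory.braiding_naturality, braiding_unit, Category.id_comp]
  have h4 : (f ⊗ₘ (g ⊗ₘ r)) ≫ swapFirst X (tpow X n) = (g ⊗ₘ (f ⊗ₘ r)) := by
    unfold swapFirst
    rw [← Category.assoc, associator_inv_naturality, Category.assoc,
      ← Category.assoc ((f ⊗ₘ g) ⊗ₘ r), ← tensorHom_id, tensorHom_comp_tensorHom, h3,
      Category.comp_id, associator_naturality, Iso.inv_hom_id_assoc]
  rw [h1, h2, Category.assoc, Category.assoc, h4]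

lemma comp_whisker {X Y Y' : C} (f : 𝟙_ C ⟶ X) (g : 𝟙_ C ⟶ Y) (h : Y ⟶ Y') :
    ((λ_ (𝟙_ C)).inv ≫ (f ⊗ₘ g)) ≫ (X ◁ h) = (λ_ (𝟙_ C)).inv ≫ (f ⊗ₘ (g ≫ h)) := by
  rw [Category.assoc, ← id_tensorHom, tensorHom_comp_tensorHom, Category.comp_id]

lemma comp_proj {X Y : C} (f : 𝟙_ C ⟶ X) (g : 𝟙_ C ⟶ Y) (f' : X ⟶ 𝟙_ C) (g' : Y ⟶ 𝟙_ C) :
    ((λ_ (𝟙_ C)).inv ≫ (f ⊗ₘ g)) ≫ ((f' ⊗ₘ g') ≫ (λ_ (𝟙_ C)).hom) =
      (λ_ (𝟙_ C)).inv ≫ ((f ≫ f') ⊗ₘ (g ≫ g')) ≫ (λ_ (𝟙_ C)).hom := by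
  rw [Category.assoc, ← Category.assoc (f ⊗ₘ g), tensorHom_comp_tensorHom]

/-- Moving the entry `j` to the front. -/
def mv {α : Type*} {n : ℕ} (j : Fin (n + 1)) (i : Fin (n + 1) → α) : Fin (n + 1) → α :=
  Fin.cons (i j) (fun k => i (j.succAbove k))

lemma mv_zero {α : Type*} {n : ℕ} (i : Fin (n + 1) → α) : mv 0 i = i := by
  funext k
  refine Fin.cases ?_ (fun k => ?_) k
  · simp [mv]
  · simp [mv]

lemma ins_toFront {X : C} (n : ℕ) (j : Fin (n + 1)) (i : Fin (n + 1) → (𝟙_ C ⟶ X)) :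
    ins (n + 1) i ≫ toFront X n j = ins (n + 1) (mv j i) := by
  induction n with
  | zero =>
    have : j = 0 := Fin.eq_zero j
    subst this
    rw [mv_zero]
    exact Category.comp_id _
  | succ n ih =>
    refine Fin.cases ?_ (fun j => ?_) j
    · rw [mv_zero]
      exact Category.comp_id _
    · have e2 : ins (n + 2) i ≫ X ◁ toFront X n j =
          (λ_ (𝟙_ C)).inv ≫ (i 0 ⊗ₘ ins (n + 1) (mv j (fun k => i k.succ))) := by
        rw [← ih]
        exact comp_whisker _ _ _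
      have e5 : (mv j.succ i) (Fin.succ 0) = i 0 := by
        simp [mv]
      have e6 : (fun k : Fin n => (mv j.succ i) k.succ.succ) =
          fun k => i (j.succAbove k).succ := by
        funext k
        simp [mv]
      have e4 : ins (n + 2) (mv j.succ i) = (λ_ (𝟙_ C)).inv ≫ (i j.succ ⊗ₘ
          ((λ_ (𝟙_ C)).inv ≫ (i 0 ⊗ₘ ins n (fun k => i (j.succAbove k).succ)))) := by
        rw [← e5, ← e6]
        rfl
      rw [e4, ← ins_swap]
      refine (Category.assoc _ _ _).symm.trans ?_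
      exact congrArg (fun z => z ≫ swapFirst X (tpow X n)) e2

lemma restPerm_spec {n : ℕ} (σ : Equiv.Perm (Fin (n + 1))) (k : Fin n) :
    (restPerm σ k).succ = σ ((σ.symm 0).succAbove k) := by
  have h1 : ((finSuccEquiv' (σ.symm 0)).symm.trans (σ.trans (finSuccEquiv' 0))) (some k) =
      finSuccEquiv' 0 (σ ((σ.symm 0).succAbove k)) := by
    simp
  have h2 : ∃ x', ((finSuccEquiv' (σ.symm 0)).symm.trans (σ.trans (finSuccEquiv' 0))) (some k) =
      some x' := by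
    rw [h1]
    have hne : σ ((σ.symm 0).succAbove k) ≠ 0 := by
      intro h
      have : (σ.symm 0).succAbove k = σ.symm 0 := by
        conv_rhs => rw [← h, Equiv.symm_apply_apply]
      exact Fin.succAbove_ne _ _ this
    obtain ⟨m, hm⟩ := Fin.exists_succ_eq.mpr hne
    refine ⟨m, ?_⟩
    rw [← hm]
    simp
  have h3 := Equiv.removeNone_some _ h2
  rw [h1] at h3
  have h4 : some (restPerm σ k) = finSuccEquiv' 0 (σ ((σ.symm 0).succAbove k)) := h3
  have h5 := congrArg (finSuccEquiv' (0 : Fin (n + 1))).symm h4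
  rw [Equiv.symm_apply_apply, finSuccEquiv'_symm_some] at h5
  simpa using h5

lemma ins_permAct {X : C} (n : ℕ) (σ : Equiv.Perm (Fin n)) (i : Fin n → (𝟙_ C ⟶ X)) :
    ins n i ≫ permAct X n σ = ins n (fun k => i (σ.symm k)) := by
  induction n with
  | zero => exact Category.comp_id _
  | succ n ih =>
    refine (Category.assoc _ _ _).symm.trans ?_
    have e2 : ins (n + 1) i ≫ toFront X n (σ.symm 0) = (λ_ (𝟙_ C)).inv ≫
        (i (σ.symm 0) ⊗ₘ ins n (fun k => i ((σ.symm 0).succAbove k))) := by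
      rw [ins_toFront]
      rfl
    refine (congrArg (fun z => z ≫ X ◁ permAct X n (restPerm σ)) e2).trans ?_
    refine (comp_whisker _ _ _).trans ?_
    rw [ih]
    have e4 : (fun k => i ((σ.symm 0).succAbove ((restPerm σ).symm k))) =
        fun k : Fin n => i (σ.symm k.succ) := by
      funext k
      have := restPerm_spec σ ((restPerm σ).symm k)
      rw [Equiv.apply_symm_apply] at this
      rw [this, Equiv.symm_apply_apply]
    rw [e4]
    rfl

lemma ins_proj_one {X : C} (n : ℕ) (i : Fin n → (𝟙_ C ⟶ X)) (p : Fin n → (X ⟶ 𝟙_ C))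
    (h : ∀ k, i k ≫ p k = 𝟙 _) : ins n i ≫ proj n p = 𝟙 _ := by
  induction n with
  | zero => exact Category.comp_id _
  | succ n ih =>
    refine (comp_proj _ _ _ _).trans ?_
    rw [ih _ _ (fun k => h k.succ), h 0, id_tensorHom_id, Category.id_comp, Iso.inv_hom_id]

lemma ins_proj_zero {X : C} [Preadditive C] [MonoidalPreadditive C] (n : ℕ)
    (i : Fin n → (𝟙_ C ⟶ X)) (p : Fin n → (X ⟶ 𝟙_ C))
    (h : ∃ k, i k ≫ p k = 0) : ins n i ≫ proj n p = 0 := by
  induction n with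
  | zero => exact h.choose.elim0
  | succ n ih =>
    refine (comp_proj _ _ _ _).trans ?_
    obtain ⟨k, hk⟩ := h
    revert hk
    refine Fin.cases ?_ (fun k => ?_) k
    · intro hk
      rw [hk, MonoidalPreadditive.zero_tensor, zero_comp, comp_zero]
    · intro hk
      rw [ih _ _ ⟨k, hk⟩, MonoidalPreadditive.tensor_zero, zero_comp, comp_zero]

end

lemma youngSymmetrizer_coeff_one {n : ℕ} (μ : YoungDiagram) (T : Fin n ≃ μ.cells) :
    (youngSymmetrizer μ T).coeff 1 = 1 := by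
  have h1 : ∀ (p : {p : Equiv.Perm (Fin n) // ∀ i, (T (p i)).1.1 = (T i).1.1})
      (q : {q : Equiv.Perm (Fin n) // ∀ i, (T (q i)).1.2 = (T i).1.2}),
      p.1 * q.1 = 1 → p.1 = 1 ∧ q.1 = 1 := by
    intro p q hpq
    have hq : q.1 = 1 := by
      ext i
      have hr : (T (q.1 i)).1.1 = (T i).1.1 := by
        have := p.2 (q.1 i)
        rw [← Equiv.Perm.mul_apply, hpq] at this
        exact this.symm
      have hc := q.2 i
      have : T (q.1 i) = T i := Subtype.ext (Prod.ext hr hc)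
      have := T.injective this
      rw [this]
      rfl
    refine ⟨?_, hq⟩
    rw [hq, mul_one] at hpq
    exact hpq
  unfold youngSymmetrizer
  rw [MonoidAlgebra.coeff_sum, Finsupp.finsetSum_apply]
  simp only [MonoidAlgebra.coeff_sum, Finsupp.finsetSum_apply, MonoidAlgebra.coeff_single]
  rw [Finset.sum_eq_single ⟨1, fun i => rfl⟩, Finset.sum_eq_single ⟨1, fun i => rfl⟩]
  · simp
  · intro q _ hq
    rw [Finsupp.single_eq_of_ne]
    intro hcon
    apply hq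
    exact Subtype.ext (h1 _ _ hcon.symm).2
  · intro hcon
    exact absurd (Finset.mem_univ _) hcon
  · intro p _ hp
    apply Finset.sum_eq_zero
    intro q _
    rw [Finsupp.single_eq_of_ne]
    intro hcon
    apply hp
    exact Subtype.ext (h1 _ _ hcon.symm).1
  · intro hcon
    exact absurd (Finset.mem_univ _) hcon

theorem not_isSchurFinite {C : Type*} [Category* C] [Preadditive C] [Linear ℚ C]
    [MonoidalCategory C] [SymmetricCategory C] [MonoidalPreadditive C] [MonoidalLinear ℚ C]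
    (X : C) (h0 : ¬ IsZero (𝟙_ C))
    (h : ∀ n : ℕ, ∃ (i : Fin n → (𝟙_ C ⟶ X)) (p : Fin n → (X ⟶ 𝟙_ C)),
      ∀ a b, i a ≫ p b = if a = b then 𝟙 _ else 0) :
    ¬ IsSchurFinite X := by
  rintro ⟨n, μ, T, -, hz⟩
  obtain ⟨i, p, hip⟩ := h n
  have key : ∀ σ : Equiv.Perm (Fin n), ins n i ≫ permAct X n σ ≫ proj n p =
      if σ = 1 then 𝟙 _ else 0 := by
    intro σ
    rw [← Category.assoc, ins_permAct]
    split_ifs with hσ
    · subst hσ
      apply ins_proj_one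
      intro k
      have e : (Equiv.symm (1 : Equiv.Perm (Fin n))) k = k := rfl
      rw [hip, if_pos e]
    · apply ins_proj_zero
      have : ∃ k, σ.symm k ≠ k := by
        by_contra hcon
        push Not at hcon
        apply hσ
        ext k
        have := hcon (σ k)
        rw [Equiv.symm_apply_apply] at this
        rw [← this]
        rfl
      obtain ⟨k, hk⟩ := this
      exact ⟨k, by rw [hip, if_neg hk]⟩
  have h1 : ins n i ≫ groupAlgAct X (youngSymmetrizer μ T) ≫ proj n p = 0 := by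
    rw [hz, zero_comp, comp_zero]
  unfold groupAlgAct at h1
  rw [Preadditive.sum_comp, Preadditive.comp_sum] at h1
  simp only [Linear.smul_comp, Linear.comp_smul, key] at h1
  rw [Finset.sum_eq_single 1] at h1
  · rw [if_pos rfl, youngSymmetrizer_coeff_one, one_smul] at h1
    exact h0 ((IsZero.iff_id_eq_zero _).mpr h1)
  · intro σ _ hσ
    rw [if_neg hσ, smul_zero]
  · intro hcon
    exact absurd (Finset.mem_univ _) hcon

end Pool.Agent.Helper23.NCM
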